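import Mathlib

/-!
# Isolated singularities at general base points bound the pair sums of the multiplicities
-/

namespace Pool.Agent.H18.Iso

open MvPolynomial

/-- `q` is an isolated point of, or not contained in, the singular locus of `F = 0`: there is a
form `g` which does not vanish at `q` such that `q` is the only possible singular point of
`F = 0` (common zero of the first derivatives) at which `g` does not vanish. -/
def IsolatedAt {n : ℕ} (F : MvPolynomial (Fin (n + 1)) ℂ) (q : Fin (n + 1) → ℂ) : Prop :=
  ∃ (e : ℕ) (g : MvPolynomial (Fin (n + 1)) ℂ), g.IsHomogeneous e ∧ MvPolynomial.eval q g ≠ 0 ∧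
    ∀ x : Fin (n + 1) → ℂ, (∀ j, MvPolynomial.eval x (MvPolynomial.pderiv j F) = 0) →
      MvPolynomial.eval x g ≠ 0 → ∃ t : ℂ, x = t • q

end Pool.Agent.H18.Iso
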